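import Pool.Agent.Helper27.LX.St
import Pool.Agent.Helper85.LQ.M_MR4

/-!
# Project LX, module MR1: Mertens modulo 3, upper bound for the class 1

The statement is the one of module MR4 of project LQ.
-/

set_option autoImplicit false

noncomputable section

namespace Pool.Agent.Helper36.LX

open Finset
open Pool.Agent.Helper27.LX
open Pool.Agent.Helper48.BK (StSW)

/-- Module MR1. -/
theorem hMR1 (hS : StSW) : StMR1 := Pool.Agent.Helper85.LQ.hMR4 hS

end Pool.Agent.Helper36.LX
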